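import Pool.Agent.H38.ER.Strong3

open Pool.Agent.H38.NP Pool.Agent.H38.ER

theorem Pool.Agent.Results.MP_0f8b55_lc.Hard.result (d : ℕ) (hd : 3 ≤ d) :
    ERHardOn (fun _ : ℕ × List (ℕ × ℕ) => True) fun p =>
      ∃ e ≤ d, ∃ x : Fin p.1 → EuclideanSpace ℝ (Fin e), Function.Injective x ∧
        ∀ u v, (graphOf p.1 p.2).Adj u v → dist (x u) (x v) = 1 := by
  refine ((lk_erh u3t_erh d hd).mono (C' := fun _ => True) fun p _ =>
    ⟨trivial, fun ⟨x, h1, h⟩ => ⟨d, le_rfl, x, h1 trivial, h⟩, fun ⟨e, he, x, h1, h⟩ => ?_⟩).hardOn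
  obtain ⟨k, rfl⟩ := Nat.exists_eq_add_of_le he
  let ι : EuclideanSpace ℝ (Fin e) → EuclideanSpace ℝ (Fin (e + k)) := fun y =>
    WithLp.toLp 2 (Fin.append y.ofLp 0)
  have hι : ∀ y z, dist (ι y) (ι z) = dist y z := fun y z => by
    simp [ι, EuclideanSpace.dist_eq, Fin.sum_univ_add]
  refine ⟨fun v => ι (x v), fun _ u v h => h1 (dist_eq_zero.1 ?_), fun u v huv => ?_⟩
  · rw [← hι]; exact dist_eq_zero.2 h
  · rw [hι]; exact h u v huv
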